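import Pool.Agent.H429R4.GC.Main
import Pool.Agent.H545R2.KMain

set_option autoImplicit false
set_option linter.unusedSectionVars false

/-!
# Transforms of the wirings of circuits for Hamiltonicity: linear algebra and placement
-/

namespace Pool.Agent.H167R3.HW

open Finset Matrix
open Pool.Agent.H525R2 (Sym.Inv Sym.exists_shift Sym.add_self_fun)
open Pool.Agent.H545R2 (SegV)
open Pool.Agent.H545R2.K (Nd Ed BI V4 Sgm bd bd_add bd_zero iotaR Bad giant_of_char bp bp_apply
  bp_notMem bp_add bp_zero rot rot_add rot_inj tau iota iota_inj act_iota act_fix actV actS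
  iotaR_apply iotaR_apply' extend_two GG GG_act act_fixes card_annihilator exists_good exists_giant
  touched Rel)

variable {M : ℕ} (π : Fin 35 → Equiv.Perm (Fin M))

/-- the boundary map as a linear map -/
noncomputable def bdL : (Ed M → ZMod 2) →ₗ[ZMod 2] (Nd M → ZMod 2) :=
  AddMonoidHom.toZModLinearMap 2
    { toFun := bd π, map_zero' := bd_zero π, map_add' := bd_add π }

theorem bdL_apply (y : Ed M → ZMod 2) : bdL π y = bd π y := rfl

/-- the boundary map as a matrix -/
noncomputable def bm : Matrix (Nd M) (Ed M) (ZMod 2) := LinearMap.toMatrix' (bdL π)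

theorem bm_mulVec (y : Ed M → ZMod 2) : bm π *ᵥ y = bd π y := by
  unfold bm
  rw [LinearMap.toMatrix'_mulVec]
  rfl

/-- the functional given by a vector -/
noncomputable def dotL (x : Nd M → ZMod 2) : (Nd M → ZMod 2) →ₗ[ZMod 2] ZMod 2 :=
  AddMonoidHom.toZModLinearMap 2
    { toFun := fun w => x ⬝ᵥ w, map_zero' := dotProduct_zero x, map_add' := dotProduct_add x }

theorem dotL_apply (x w : Nd M → ZMod 2) : dotL x w = x ⬝ᵥ w := rfl

/-- a vector that is constant on more than three quarters of the clusters is small or large -/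
theorem norm_of_const (x : Nd M → ZMod 2) (C : Finset (Fin M)) (hC : 3 * M < 4 * C.card)
    (h : ∀ v v' : Nd M, v.1 ∈ C → v'.1 ∈ C → x v = x v') :
    (hammingNorm x < 35 * M ∧ ∀ v : Nd M, v.1 ∈ C → x v = 0) ∨
      (2 * (35 * M) ≤ hammingNorm x) := by
  classical
  have hCne : C.Nonempty := by
    rw [← Finset.card_pos]
    omega
  obtain ⟨i, hi⟩ := hCne
  by_cases h0 : x (i, 0) = 0
  · left
    have hz : ∀ v : Nd M, v.1 ∈ C → x v = 0 := fun v hv => (h v (i, 0) hv hi).trans h0
    refine ⟨?_, hz⟩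
    have h1 : hammingNorm x ≤ ((univ \ C) ×ˢ (univ : Finset (Fin 140))).card := by
      unfold hammingNorm
      apply Finset.card_le_card
      intro v hv
      rw [Finset.mem_filter] at hv
      rw [Finset.mem_product, Finset.mem_sdiff]
      exact ⟨⟨Finset.mem_univ _, fun hvC => hv.2 (hz v hvC)⟩, Finset.mem_univ _⟩
    rw [Finset.card_product, Finset.card_univ, Fintype.card_fin] at h1
    have h2 := Finset.card_sdiff_add_card_eq_card (Finset.subset_univ C)
    rw [Finset.card_univ, Fintype.card_fin] at h2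
    omega
  · right
    have h1 : (C ×ˢ (univ : Finset (Fin 140))).card ≤ hammingNorm x := by
      unfold hammingNorm
      apply Finset.card_le_card
      intro v hv
      rw [Finset.mem_product] at hv
      rw [Finset.mem_filter]
      refine ⟨Finset.mem_univ _, ?_⟩
      rw [h v (i, 0) hv.1 hi]
      exact h0
    rw [Finset.card_product, Finset.card_univ, Fintype.card_fin] at h1
    omega

section mid

variable {r : ℕ} (ei : BI M ↪ Fin r)

/-- vectors of middle weight are seen by every subgroup with good characters -/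
theorem exists_mid
    (hπ : ∀ A B : Finset (Fin M), M ≤ 5 * A.card → M ≤ 5 * B.card → ∃ j, ∃ a ∈ A, π j a ∈ B)
    (hM : 0 < M) (R : BI M → ZMod 3) (W : Submodule (ZMod 2) (Fin r → V4))
    (hR : ∀ χ ∈ W.dualAnnihilator, R ∉ Bad π ei χ) (x : Nd M → ZMod 2)
    (hx1 : 35 * M ≤ hammingNorm x) (hx2 : hammingNorm x < 2 * (35 * M)) :
    ∃ y, iotaR π ei R y ∈ W ∧ (x ᵥ* bm π) ⬝ᵥ y ≠ 0 := by
  classical
  by_contra hcon
  push Not at hcon
  have hf : ((dotL x).comp (bdL π)) ∈ (LinearMap.ker (W.mkQ.comp (iotaR π ei R))).dualAnnihilator := by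
    rw [Submodule.mem_dualAnnihilator]
    intro y hy
    rw [LinearMap.mem_ker, LinearMap.comp_apply, Submodule.mkQ_apply,
      Submodule.Quotient.mk_eq_zero] at hy
    have h1 := hcon y hy
    rw [← Matrix.dotProduct_mulVec, bm_mulVec] at h1
    exact h1
  rw [← LinearMap.range_dualMap_eq_dualAnnihilator_ker] at hf
  obtain ⟨g, hg⟩ := hf
  have hχ : g.comp W.mkQ ∈ W.dualAnnihilator := by
    rw [Submodule.mem_dualAnnihilator]
    intro w hw
    have : W.mkQ w = 0 := (Submodule.Quotient.mk_eq_zero W).2 hw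
    rw [LinearMap.comp_apply, this, map_zero]
  obtain ⟨C, hC1, hC2⟩ := giant_of_char π ei hπ hM R (g.comp W.mkQ) (dotL x)
    (fun y => LinearMap.congr_fun hg y) (hR _ hχ)
  rcases norm_of_const x C hC1 (fun v v' hv hv' => by
    have h1 := hC2 v v' hv hv'
    rw [dotL_apply, dotL_apply, dotProduct_single_one, dotProduct_single_one] at h1
    exact h1) with h | h
  · omega
  · omega

end mid

/-- a node that no small vector without boundary contains -/
theorem exists_node
    (hπ : ∀ A B : Finset (Fin M), M ≤ 5 * A.card → M ≤ 5 * B.card → ∃ j, ∃ a ∈ A, π j a ∈ B)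
    (hM : 0 < M) : ∃ v0 : Nd M, ∀ x : Nd M → ZMod 2, hammingNorm x < 35 * M →
      (∀ y, (x ᵥ* bm π) ⬝ᵥ y = 0) → x v0 = 0 := by
  classical
  obtain ⟨C, -, hC, hC2⟩ := exists_giant (π := π) hπ hM univ (by
    rw [Finset.card_univ, Fintype.card_fin]; omega)
  have hCne : C.Nonempty := by
    rw [← Finset.card_pos]
    omega
  obtain ⟨i, hi⟩ := hCne
  refine ⟨(i, 0), fun x hx hy => ?_⟩
  rcases norm_of_const x C hC (fun v v' hv hv' => by
    obtain ⟨y, -, hy2⟩ := hC2 v.1 hv v'.1 hv' v.2 v'.2
    have h1 := hy y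
    rw [← Matrix.dotProduct_mulVec, bm_mulVec, hy2, dotProduct_add, dotProduct_single_one,
      dotProduct_single_one] at h1
    have h2 : ∀ a b : ZMod 2, a + b = 0 → a = b := by decide
    exact h2 _ _ h1) with h | h
  · exact h.2 (i, 0) hi
  · omega

/-- the placement of the gadget -/
theorem exists_placement {V : Type} [Fintype V] {r z : ℕ} (blk : Fin r × V4 ↪ V)
    (ei : BI M ↪ Fin r) (R : BI M → ZMod 3)
    (hcard : Fintype.card V = Fintype.card (SegV (Sgm M) z)) :
    ∃ Θ : V ≃ SegV (Sgm M) z, ∀ y x,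
      Θ (bp blk (iotaR π ei R y) x) = actV π y (Θ x) := by
  classical
  obtain ⟨Θ, hΘ⟩ := extend_two (A := BI M × V4) (V := V) (W := SegV (Sgm M) z)
    (fun q => blk (ei q.1, rot (R q.1) q.2)) (fun q => Sum.inl (iota q))
    (by
      rintro ⟨b, l⟩ ⟨b', l'⟩ h
      have h1 := blk.injective h
      simp only [Prod.mk.injEq] at h1
      have h2 := ei.injective h1.1
      subst h2
      rw [rot_inj _ h1.2])
    (by
      intro q q' h
      exact iota_inj (Sum.inl_injective h)) hcard
  have hrot_surj : ∀ (k : ZMod 3) (l : V4), ∃ l', rot k l' = l := by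
    unfold rot
    decide
  refine ⟨Θ, fun y x => ?_⟩
  by_cases h : ∃ b l, x = blk (ei b, rot (R b) l)
  · obtain ⟨b, l, rfl⟩ := h
    have h1 : bp blk (iotaR π ei R y) (blk (ei b, rot (R b) l)) =
        blk (ei b, rot (R b) (l + tau π y b)) := by
      rw [bp_apply, iotaR_apply, rot_add]
    rw [h1]
    have h2 := hΘ (b, l + tau π y b)
    have h3 := hΘ (b, l)
    simp only at h2 h3
    rw [h2, h3, ← act_iota]
    rfl
  · have h1 : bp blk (iotaR π ei R y) x = x := by
      by_cases hx : x ∈ Set.range blk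
      · obtain ⟨⟨j, c⟩, rfl⟩ := hx
        rw [bp_apply]
        by_cases hj : ∃ b, ei b = j
        · obtain ⟨b, rfl⟩ := hj
          obtain ⟨l, hl⟩ := hrot_surj (R b) c
          exact absurd ⟨b, l, by rw [hl]⟩ h
        · rw [iotaR_apply' π ei R y j hj, add_zero]
      · exact bp_notMem blk _ hx
    rw [h1]
    rcases hx : Θ x with ⟨mm, o⟩ | j
    · have h2 : actS π y mm = mm := by
        apply act_fix π y mm o
        intro b l hbl
        apply h
        refine ⟨b, l, Θ.injective ?_⟩
        have h3 := hΘ (b, l)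
        simp only at h3
        rw [h3, hbl, hx]
      simp only [actV, h2]
    · rfl

/-- locality of the charges -/
theorem adj_local {V : Type} {z : ℕ} (Θ : V ≃ SegV (Sgm M) z)
    (P : (Ed M → ZMod 2) → Equiv.Perm V) (hΘP : ∀ y x, Θ (P y x) = actV π y (Θ x)) (p q : V)
    (b τ : Nd M → ZMod 2)
    (h : ∀ j, τ j ≠ 0 → ∃ u, s(P u p, P u q) = s(p, q) ∧ bd π u j ≠ 0) :
    ((GG π (b + τ) z).Adj (Θ p) (Θ q) ↔ (GG π b z).Adj (Θ p) (Θ q)) := by
  classical
  have key : ∀ S : Finset (Nd M), (∀ j ∈ S, ∃ u, s(P u p, P u q) = s(p, q) ∧ bd π u j ≠ 0) →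
      ∀ b, ((GG π (b + ∑ j ∈ S, Pi.single j 1) z).Adj (Θ p) (Θ q) ↔
        (GG π b z).Adj (Θ p) (Θ q)) := by
    intro S
    induction S using Finset.induction_on with
    | empty =>
      intro _ b
      rw [Finset.sum_empty, add_zero]
    | insert j S hj ih =>
      intro hS b
      rw [Finset.sum_insert hj, ← add_assoc]
      rw [ih (fun j' hj' => hS j' (Finset.mem_insert_of_mem hj'))]
      obtain ⟨u, hu1, hu2⟩ := hS j (Finset.mem_insert_self _ _)
      by_contra hne
      apply hu2
      have h1 : ∀ v', v' ≠ j → (b + Pi.single j 1 : Nd M → ZMod 2) v' = b v' := by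
        intro v' hv'
        rw [Pi.add_apply, Pi.single_eq_of_ne hv', add_zero]
      refine act_fixes π j h1 (u := Θ p) (w := Θ q) (fun hh => hne hh.symm) u ?_
      rw [← hΘP, ← hΘP]
      have := congrArg (Sym2.map Θ) hu1
      simpa using this
  have hτ : τ = ∑ j ∈ univ.filter (fun j => τ j ≠ 0), Pi.single j (1 : ZMod 2) := by
    have h1 : ∀ c : ZMod 2, c ≠ 0 → c = 1 := by decide
    ext v
    rw [Finset.sum_apply]
    by_cases hv : τ v = 0
    · rw [hv, Finset.sum_eq_zero]
      intro j hj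
      rw [Finset.mem_filter] at hj
      rw [Pi.single_eq_of_ne]
      rintro rfl
      exact hj.2 hv
    · rw [Finset.sum_eq_single_of_mem v (by simp [hv]), Pi.single_eq_same]
      · exact h1 _ hv
      · intro j _ hjv
        rw [Pi.single_eq_of_ne (Ne.symm hjv)]
  rw [hτ]
  apply key
  intro j hj
  rw [Finset.mem_filter] at hj
  exact h j hj.2

end Pool.Agent.H167R3.HW
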