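import Pool.Agent.H429R4.GC.Defs
import Mathlib.GroupTheory.Perm.ViaEmbedding

set_option autoImplicit false

/-!
# Translations of quadruples of vertices, and transforms of the functions at the gates
-/

namespace Pool.Agent.H167R3.HW

open Pool.Agent.H429R4.Sem (Circuit)
open Pool.Agent.H429R4.GC (value adj)

variable {V D L : Type} {r : ℕ}

/-- The permutation of the vertices that maps `quad (i, l)` to `quad (i, l + κ i)` and fixes the
vertices outside the quadruples; the four vertices of every quadruple are indexed by the Klein
four-group, so these are all products of double transpositions of the quadruples. -/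
noncomputable def transl (quad : Fin r × (ZMod 2 × ZMod 2) ↪ V)
    (κ : Fin r → ZMod 2 × ZMod 2) : Equiv.Perm V :=
  Equiv.Perm.viaEmbedding (Equiv.prodShear (Equiv.refl (Fin r))
    (fun j => Equiv.addRight (κ j))) quad

/-- The number of different transforms `G ↦ value g (G.comap (transl quad κ))` of the function
computed at the gate `g`. It is at most `4 ^ r`. -/
noncomputable def transforms (C : Circuit (V × V) D L) (quad : Fin r × (ZMod 2 × ZMod 2) ↪ V)
    (g : C.Gate) : ℕ :=
  Nat.card (Set.range fun (κ : Fin r → ZMod 2 × ZMod 2) (G : SimpleGraph V) =>
    value adj C g (G.comap (transl quad κ)))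

end Pool.Agent.H167R3.HW
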