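import Pool.Agent.H429R4.GC.Brute

set_option autoImplicit false
set_option linter.unusedSectionVars false

/-!
# A symmetric circuit for Hamiltonicity (dynamic programming over the sets of vertices)
-/

namespace Pool.Agent.H167R3.HW

open Finset
open Pool.Agent.H429R4.Sem (Circuit)
open Pool.Agent.H429R4.GC (value value_eq adj adj_eq_true IsAut numWirings numWirings_le_size
  relabelings)

variable {W : Type} [Fintype W] [DecidableEq W]

/-- gates `(S, u, v)`: there is a path from `u` to `v` with vertex set `S` -/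
abbrev GP (W : Type) : Type := Finset W × (W × W)

/-- gates `(S, u, w, v)`: `u w` is an edge and there is a path from `w` to `v` with vertex
set `S` -/
abbrev GQ (W : Type) : Type := Finset W × ((W × W) × W)

variable (W) in
/-- The circuit. -/
def karp : Circuit (W × W) Bool Unit where
  Gate := GP W ⊕ (GQ W ⊕ Unit)
  finite := inferInstance
  rank := Sum.elim (fun p => 2 * p.1.card) (Sum.elim (fun q => 2 * q.1.card + 1)
    fun _ => 2 * Fintype.card W + 2)
  read := Sum.elim (fun _ => none) (Sum.elim (fun q => some q.2.1) fun _ => none)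
  wires := Sum.elim
    (fun p => if p.2.1 ∈ p.1 then (p.1.erase p.2.1).val.map fun w =>
      ((), Sum.inr (Sum.inl (p.1.erase p.2.1, ((p.2.1, w), p.2.2)))) else 0)
    (Sum.elim (fun q => {((), Sum.inl (q.1, (q.2.1.2, q.2.2)))})
      fun _ => (univ : Finset (W × W)).val.map fun e =>
        ((), Sum.inr (Sum.inl ((univ : Finset W), ((e.1, e.2), e.1)))))
  rank_lt := by
    rintro (⟨S, u, v⟩ | ⟨S, ⟨u, w⟩, v⟩ | x) p hp
    · simp only [Sum.elim_inl] at hp
      split_ifs at hp with hu
      · simp only [Multiset.mem_map, mem_val] at hp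
        obtain ⟨w, hw, rfl⟩ := hp
        have := card_erase_lt_of_mem hu
        simp only [Sum.elim_inr, Sum.elim_inl]
        omega
      · simp at hp
    · simp only [Sum.elim_inr, Sum.elim_inl, Multiset.mem_singleton] at hp
      subst hp
      simp
    · simp only [Sum.elim_inr, Multiset.mem_map] at hp
      obtain ⟨e, -, rfl⟩ := hp
      simp only [Sum.elim_inr, Sum.elim_inl, card_univ]
      omega
  fn := Sum.elim
    (fun p _ m => decide ((p.1 = {p.2.1} ∧ p.2.1 = p.2.2) ∨ ∃ q ∈ m, q.2 = true))
    (Sum.elim (fun _ o m => decide (o = some true ∧ ∀ q ∈ m, q.2 = true))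
      fun _ _ m => decide (∃ q ∈ m, q.2 = true))
  out := Sum.inr (Sum.inr ())

/-- The gate of a path. -/
def gP (S : Finset W) (u v : W) : (karp W).Gate := Sum.inl (S, (u, v))

/-- The gate of a path with an edge. -/
def gQ (S : Finset W) (u w v : W) : (karp W).Gate := Sum.inr (Sum.inl (S, ((u, w), v)))

/-- The output gate. -/
def gO : (karp W).Gate := Sum.inr (Sum.inr ())

/-- There is a path from `u` to `v` with vertex set `S`. -/
def HP (G : SimpleGraph W) (S : Finset W) (u v : W) : Prop :=
  ∃ p : G.Walk u v, p.IsPath ∧ p.support.toFinset = S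

theorem karp_Q (G : SimpleGraph W) (S : Finset W) (u w v : W) :
    value adj (karp W) (gQ S u w v) G = true ↔
      G.Adj u w ∧ value adj (karp W) (gP S w v) G = true := by
  rw [value_eq]
  change decide ((some (adj G (u, w)) : Option Bool) = some true ∧
    ∀ q ∈ Multiset.map (fun e : Unit × (karp W).Gate => (e.1, value adj (karp W) e.2 G))
      {((), gP S w v)}, q.2 = true) = true ↔ _
  rw [decide_eq_true_eq, Multiset.map_singleton]
  simp only [Multiset.mem_singleton, forall_eq, Option.some.injEq]
  rw [adj_eq_true]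

theorem karp_P (G : SimpleGraph W) (S : Finset W) (u v : W) :
    value adj (karp W) (gP S u v) G = true ↔
      ((S = {u} ∧ u = v) ∨ (u ∈ S ∧ ∃ w ∈ S.erase u, G.Adj u w ∧
        value adj (karp W) (gP (S.erase u) w v) G = true)) := by
  rw [value_eq]
  change decide ((S = {u} ∧ u = v) ∨
    ∃ q ∈ Multiset.map (fun e : Unit × (karp W).Gate => (e.1, value adj (karp W) e.2 G))
      (if u ∈ S then (S.erase u).val.map fun w => ((), gQ (S.erase u) u w v) else 0),
      q.2 = true) = true ↔ _
  rw [decide_eq_true_eq]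
  refine or_congr Iff.rfl ?_
  by_cases hu : u ∈ S
  · rw [if_pos hu, Multiset.map_map]
    constructor
    · rintro ⟨q, hq, h⟩
      rw [Multiset.mem_map] at hq
      obtain ⟨w, hw, rfl⟩ := hq
      exact ⟨hu, w, hw, (karp_Q G _ u w v).1 h⟩
    · rintro ⟨-, w, hw, h⟩
      refine ⟨((), value adj (karp W) (gQ (S.erase u) u w v) G), ?_, (karp_Q G _ u w v).2 h⟩
      rw [Multiset.mem_map]
      exact ⟨w, hw, rfl⟩
  · rw [if_neg hu]
    constructor
    · rintro ⟨q, hq, -⟩
      simp at hq
    · rintro ⟨h, -⟩
      exact absurd h hu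

theorem HP_iff (G : SimpleGraph W) (S : Finset W) (u v : W) :
    HP G S u v ↔ ((S = {u} ∧ u = v) ∨ (u ∈ S ∧ ∃ w ∈ S.erase u, G.Adj u w ∧
      HP G (S.erase u) w v)) := by
  constructor
  · rintro ⟨p, hp, hS⟩
    cases p with
    | nil =>
      left
      refine ⟨?_, rfl⟩
      rw [← hS]
      simp
    | @cons _ w _ h q =>
      right
      rw [SimpleGraph.Walk.cons_isPath_iff] at hp
      rw [SimpleGraph.Walk.support_cons, List.toFinset_cons] at hS
      have h1 : S.erase u = q.support.toFinset := by
        rw [← hS, erase_insert]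
        rw [List.mem_toFinset]
        exact hp.2
      refine ⟨?_, w, ?_, h, q, hp.1, h1.symm⟩
      · rw [← hS]
        exact mem_insert_self _ _
      · rw [h1, List.mem_toFinset]
        exact q.start_mem_support
  · rintro (⟨rfl, rfl⟩ | ⟨hu, w, -, h, q, hq, hS⟩)
    · exact ⟨SimpleGraph.Walk.nil, SimpleGraph.Walk.IsPath.nil, by simp⟩
    · refine ⟨SimpleGraph.Walk.cons h q, ?_, ?_⟩
      · rw [SimpleGraph.Walk.cons_isPath_iff]
        refine ⟨hq, ?_⟩
        rw [← List.mem_toFinset, hS]
        exact notMem_erase _ _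
      · rw [SimpleGraph.Walk.support_cons, List.toFinset_cons, hS, insert_erase hu]

theorem karp_path (G : SimpleGraph W) (S : Finset W) (u v : W) :
    value adj (karp W) (gP S u v) G = true ↔ HP G S u v := by
  induction hn : S.card using Nat.strong_induction_on generalizing S u with
  | _ n ih =>
    rw [karp_P, HP_iff]
    refine or_congr Iff.rfl (and_congr_right fun hu => ?_)
    refine exists_congr fun w => and_congr_right fun _ => and_congr_right fun _ => ?_
    exact ih _ (by rw [← hn]; exact card_erase_lt_of_mem hu) _ _ rfl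

theorem ham_iff (h3 : 3 ≤ Fintype.card W) (G : SimpleGraph W) :
    G.IsHamiltonian ↔ ∃ u v, G.Adj v u ∧ HP G univ u v := by
  constructor
  · intro h
    obtain ⟨a, c, hc⟩ := h (by omega)
    have hn : ¬ c.Nil := hc.isCycle.not_nil
    refine ⟨c.snd, a, c.adj_snd hn, c.tail, hc.isHamiltonian_tail.isPath, ?_⟩
    exact hc.isHamiltonian_tail.toFinset_support
  · rintro ⟨u, v, h, p, hp, hS⟩ _
    refine ⟨v, SimpleGraph.Walk.cons h p, ?_⟩
    have hcyc : (SimpleGraph.Walk.cons h p).IsCycle := by
      rw [SimpleGraph.Walk.cons_isCycle_iff]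
      refine ⟨hp, fun he => ?_⟩
      cases p with
      | nil => simp at he
      | @cons _ w _ h' q =>
        rw [SimpleGraph.Walk.cons_isPath_iff] at hp
        rw [SimpleGraph.Walk.edges_cons, List.mem_cons] at he
        rcases he with he | he
        · have hw : w = v := by
            rw [Sym2.eq_iff] at he
            rcases he with ⟨h1, h2⟩ | ⟨h1, h2⟩
            · rw [← h2, ← h1] at *
            · exact h1.symm
          subst hw
          have hq : q = SimpleGraph.Walk.nil := SimpleGraph.Walk.isPath_iff_eq_nil.1 hp.1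
          rw [hq] at hS
          have h4 := congrArg Finset.card hS
          rw [card_univ] at h4
          have h5 : (SimpleGraph.Walk.cons h' (SimpleGraph.Walk.nil : G.Walk w w)).support.toFinset.card ≤ 2 := by
            refine (List.toFinset_card_le _).trans ?_
            simp
          omega
        · exact hp.2 (q.snd_mem_support_of_mem_edges he)
    refine SimpleGraph.Walk.isHamiltonianCycle_iff_isCycle_and_support_count_tail_eq_one.2
      ⟨hcyc, fun a => ?_⟩
    rw [SimpleGraph.Walk.support_cons, List.tail_cons]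
    refine List.count_eq_one_of_mem hp.support_nodup ?_
    rw [← List.mem_toFinset, hS]
    exact mem_univ _

theorem karp_output (h3 : 3 ≤ Fintype.card W) (G : SimpleGraph W) :
    (karp W).output (adj G) = true ↔ G.IsHamiltonian := by
  rw [ham_iff h3]
  change value adj (karp W) gO G = true ↔ _
  rw [value_eq]
  change decide (∃ q ∈ Multiset.map (fun e : Unit × (karp W).Gate =>
    (e.1, value adj (karp W) e.2 G)) ((univ : Finset (W × W)).val.map
      fun e => ((), gQ univ e.1 e.2 e.1)), q.2 = true) = true ↔ _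
  rw [decide_eq_true_eq, Multiset.map_map]
  constructor
  · rintro ⟨q, hq, h⟩
    rw [Multiset.mem_map] at hq
    obtain ⟨e, -, rfl⟩ := hq
    have h1 := (karp_Q G _ _ _ _).1 h
    exact ⟨e.2, e.1, h1.1, (karp_path G _ _ _).1 h1.2⟩
  · rintro ⟨u, v, h1, h2⟩
    refine ⟨((), value adj (karp W) (gQ univ v u v) G), ?_,
      (karp_Q G _ _ _ _).2 ⟨h1, (karp_path G _ _ _).2 h2⟩⟩
    rw [Multiset.mem_map]
    exact ⟨(v, u), mem_univ _, rfl⟩

theorem karp_aut (σ : Equiv.Perm W) : ∃ π, IsAut (karp W) σ π := by
  let πP : Equiv.Perm (GP W) := Equiv.prodCongr (Equiv.finsetCongr σ) (Equiv.prodCongr σ σ)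
  let πQ : Equiv.Perm (GQ W) := Equiv.prodCongr (Equiv.finsetCongr σ)
    (Equiv.prodCongr (Equiv.prodCongr σ σ) σ)
  refine ⟨Equiv.sumCongr πP (Equiv.sumCongr πQ (Equiv.refl Unit)), ⟨?_, ?_, ?_⟩⟩
  · rintro (p | q | x)
    · rfl
    · rfl
    · rfl
  · rintro (⟨S, u, v⟩ | ⟨S, ⟨u, w⟩, v⟩ | x)
    · change (if σ u ∈ S.map σ.toEmbedding then ((S.map σ.toEmbedding).erase (σ u)).val.map
        (fun w => ((), gQ ((S.map σ.toEmbedding).erase (σ u)) (σ u) w (σ v))) else 0) =
        Multiset.map _ (if u ∈ S then (S.erase u).val.map fun w => ((), gQ (S.erase u) u w v)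
          else 0)
      have h1 : (S.map σ.toEmbedding).erase (σ u) = (S.erase u).map σ.toEmbedding := by
        rw [map_erase]
        rfl
      have h2 : σ u ∈ S.map σ.toEmbedding ↔ u ∈ S := by
        rw [← Equiv.coe_toEmbedding, mem_map' σ.toEmbedding]
      by_cases hu : u ∈ S
      · rw [if_pos hu, if_pos (h2.2 hu), h1, map_val]
        refine (Multiset.map_map _ _ _).trans (Eq.trans ?_ (Multiset.map_map _ _ _).symm)
        rfl
      · rw [if_neg hu, if_neg (fun h => hu (h2.1 h))]
        rfl
    · rfl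
    · change (univ : Finset (W × W)).val.map (fun e => ((), gQ univ e.1 e.2 e.1)) =
        Multiset.map _ ((univ : Finset (W × W)).val.map fun e => ((), gQ univ e.1 e.2 e.1))
      conv_lhs => rw [← map_univ_equiv (Equiv.prodCongr σ σ)]
      rw [map_val]
      refine (Multiset.map_map _ _ _).trans (Eq.trans ?_ (Multiset.map_map _ _ _).symm)
      refine Multiset.map_congr rfl fun e _ => ?_
      refine congrArg (Prod.mk ()) ?_
      change gQ univ (σ e.1) (σ e.2) (σ e.1) =
        gQ ((univ : Finset W).map σ.toEmbedding) (σ e.1) (σ e.2) (σ e.1)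
      rw [map_univ_equiv]
  · rintro (⟨S, u, v⟩ | q | x)
    · funext o m
      have h1 : (S.map σ.toEmbedding = {σ u} ∧ σ u = σ v) ↔ (S = {u} ∧ u = v) := by
        have h2 : ({σ u} : Finset W) = ({u} : Finset W).map σ.toEmbedding := by simp
        rw [h2, map_inj, σ.injective.eq_iff]
      change decide ((S.map σ.toEmbedding = {σ u} ∧ σ u = σ v) ∨ ∃ q ∈ m, q.2 = true) =
        decide ((S = {u} ∧ u = v) ∨ ∃ q ∈ m, q.2 = true)
      rw [decide_eq_decide, h1]
    · rfl
    · rfl

theorem numWirings_karp :
    numWirings adj (karp W) (relabelings W) ≤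
      2 ^ Fintype.card W * (Fintype.card W + 1) ^ 3 := by
  refine (numWirings_le_size _ karp_aut).trans ?_
  change Fintype.card (GP W ⊕ (GQ W ⊕ Unit)) ≤ _
  rw [Fintype.card_sum, Fintype.card_sum, Fintype.card_prod, Fintype.card_prod,
    Fintype.card_prod, Fintype.card_prod, Fintype.card_prod, Fintype.card_finset,
    Fintype.card_unit]
  have h1 : 1 ≤ 2 ^ Fintype.card W := Nat.one_le_two_pow
  generalize 2 ^ Fintype.card W = a at *
  generalize Fintype.card W = n at *
  nlinarith [Nat.zero_le (a * n), Nat.zero_le (a * (n * n))]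

end Pool.Agent.H167R3.HW
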