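import Pool.Agent.H167R3.HW.Shift
import Pool.Agent.H429R4.GC.Brute

set_option autoImplicit false
set_option linter.unusedSectionVars false

/-!
# Lower bounds for the number of transforms of the wirings of circuits for Hamiltonicity
-/

namespace Pool.Agent.H167R3.HW

open Finset Matrix
open Pool.Agent.H545R2 (SegV exists_joining)
open Pool.Agent.H545R2.K (Nd Ed BI V4 Sgm bd bd_add bd_zero iotaR Bad bp bp_apply
  bp_notMem bp_add bp_zero actV GG GG_act card_BI card_Sgm ham_of_hom backward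
  forward)
open Pool.Agent.H429R4.Sem (Circuit)
open Pool.Agent.H429R4.GC (value view adj IsRight isRight_comap act_comp pre pre_pre
  pre_view pre_id wirings numWirings relabelings)

/-- Hamiltonicity is invariant under relabelings. -/
theorem ham_comap {V : Type} {W : Type} [Fintype V] [DecidableEq V] [Fintype W] [DecidableEq W]
    (e : V ≃ W) (G : SimpleGraph W) : (G.comap e).IsHamiltonian ↔ G.IsHamiltonian := by
  constructor
  · exact ham_of_hom (G := G.comap e) (H := G) ⟨e, fun {a b} h => h⟩ e.bijective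
  · refine ham_of_hom (G := G) (H := G.comap e) ⟨e.symm, fun {a b} h => ?_⟩ e.symm.bijective
    show G.Adj (e (e.symm a)) (e (e.symm b))
    rwa [Equiv.apply_symm_apply, Equiv.apply_symm_apply]

theorem ham_zero {V : Type} [Fintype V] [DecidableEq V] {M z : ℕ}
    (π : Fin 35 → Equiv.Perm (Fin M)) (hM : 0 < M) (Θ : V ≃ SegV (Sgm M) z) :
    (gg π Θ 0).IsHamiltonian := (ham_comap Θ _).2 (backward π hM z)

theorem not_ham_single {V : Type} [Fintype V] [DecidableEq V] {M z : ℕ}
    (π : Fin 35 → Equiv.Perm (Fin M)) (Θ : V ≃ SegV (Sgm M) z) (v : Nd M) :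
    ¬ (gg π Θ (Pi.single v 1)).IsHamiltonian := by
  intro h
  have h3 := forward π _ z ((ham_comap Θ _).1 h)
  rw [Finset.sum_pi_single'] at h3
  simp at h3

variable {V D L : Type}

/-- The set of the relabelings given by the translations of the blocks. -/
def translations {r : ℕ} (blk : Fin r × V4 ↪ V) : Set (SimpleGraph V → SimpleGraph V) :=
  Set.range fun (κ : Fin r → V4) (G : SimpleGraph V) => G.comap (bp blk κ)

/-- The set of transforms of wirings is finite. -/
theorem wirings_finite' {S : Type} [Finite S] (f : S → SimpleGraph V → SimpleGraph V)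
    (C : Circuit (V × V) D L) : (wirings adj C (Set.range f)).Finite := by
  have := C.finite
  have h1 : wirings adj C (Set.range f) =
      Set.range fun p : C.Gate × S => view adj C p.1 (f p.2) := by
    ext ξ
    constructor
    · rintro ⟨g, _, ⟨s, rfl⟩, rfl⟩
      exact ⟨(g, s), rfl⟩
    · rintro ⟨⟨g, s⟩, rfl⟩
      exact ⟨g, f s, ⟨s, rfl⟩, rfl⟩
  rw [h1]
  exact Set.finite_range _

/-- **Local lower bound.** -/
theorem local_lower [Fintype V] [DecidableEq V] (C : Circuit (V × V) D L) (acc : Set D)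
    (hC : ∀ G : SimpleGraph V, C.output (adj G) ∈ acc ↔ G.IsHamiltonian) {r : ℕ}
    (blk : Fin r × V4 ↪ V) :
    2 ^ (r / 2000000) ≤ numWirings adj C (translations blk) := by
  classical
  by_contra hcon
  rw [not_le] at hcon
  obtain ⟨m, hmdef⟩ : ∃ m, m = r / 2000000 := ⟨_, rfl⟩
  rw [← hmdef] at hcon
  have hfin : (wirings adj C (translations blk)).Finite := wirings_finite' _ C
  have hmem : ∀ g κ, view adj C g (cm (bp blk κ)) ∈ wirings adj C (translations blk) :=
    fun g κ => ⟨g, _, ⟨κ, rfl⟩, rfl⟩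
  have hpos : 0 < numWirings adj C (translations blk) := by
    unfold numWirings
    have : Finite (wirings adj C (translations blk)) := hfin
    exact Nat.card_pos_iff.2 ⟨⟨⟨_, hmem C.out 0⟩⟩, this⟩
  have hm0 : 0 < m := by
    rcases Nat.eq_zero_or_pos m with h | h
    · rw [h] at hcon
      simp at hcon
      omega
    · exact h
  obtain ⟨M, hMdef⟩ : ∃ M, M = 240 * m := ⟨_, rfl⟩
  have hM : 0 < M := by omega
  have hr' : 8200 * M ≤ r := by
    have := Nat.div_mul_le_self r 2000000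
    omega
  have hr : 7980 * M ≤ r := by omega
  obtain ⟨π, hπ⟩ := exists_joining M hM
  obtain ⟨ei⟩ : Nonempty (BI M ↪ Fin r) := by
    apply Function.Embedding.nonempty_of_card_le
    rw [card_BI, Fintype.card_fin]
    exact hr
  have hVr : 4 * r ≤ Fintype.card V := by
    have h4 : Fintype.card V4 = 4 := by simp
    have := Fintype.card_le_of_embedding blk
    rw [Fintype.card_prod, Fintype.card_fin, h4] at this
    omega
  obtain ⟨z, hz⟩ : ∃ z, Fintype.card V = (10850 * M + 1) * 3 + z :=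
    ⟨Fintype.card V - (10850 * M + 1) * 3, by omega⟩
  have hcard : Fintype.card V = Fintype.card (SegV (Sgm M) z) := by
    have h3 : Fintype.card (Option Bool) = 3 := rfl
    unfold SegV
    rw [Fintype.card_sum, Fintype.card_prod, card_Sgm, h3, Fintype.card_fin]
    exact hz
  obtain ⟨R, hR⟩ := exists_R blk π ei m hMdef (wirings adj C (translations blk)) hfin
    (by
      rintro ξ ⟨g, f, ⟨κ, rfl⟩, rfl⟩ κ'
      refine ⟨g, cm (bp blk κ) ∘ cm (bp blk κ'), ⟨κ' + κ, ?_⟩, ?_⟩
      · have h := act_comp (isRight_comap (W := V)) (bp blk κ) (bp blk κ')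
        rw [← bp_add] at h
        exact h.symm
      · rw [pre_view]) hcon
  obtain ⟨Θ, hΘ⟩ := exists_placement π blk ei R hcard
  obtain ⟨v0, hv0⟩ := exists_node π hπ hM
  have h1 : cm (1 : Equiv.Perm V) = id := funext fun G => (isRight_comap (W := V)).one G
  obtain ⟨u₀, hu₀⟩ := exists_shift_ham blk π ei R hπ hM Θ hΘ C 1 (by
    intro g χ hχ
    refine hR (view adj C g (cm 1)) ?_ χ hχ
    have h2 := hmem g 0
    rwa [bp_zero] at h2) v0 hv0
  have h2 := hu₀ 0
  have h3 := (hC (cm 1 (cm (bp blk (iotaR π ei R (0 + u₀))) (gg π Θ 0)))).2 (by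
    rw [h1]
    exact (ham_comap (bp blk (iotaR π ei R (0 + u₀))) _).2 (ham_zero π hM Θ))
  rw [h2, hC, h1] at h3
  exact not_ham_single π Θ v0 ((ham_comap (bp blk (iotaR π ei R 0)) _).1 h3)

/-- **Global lower bound, for relabelings of one pair of graphs.** -/
theorem global_pair (V : Type) [Fintype V] [DecidableEq V] (hV : 8000000 ≤ Fintype.card V) :
    ∃ G H : SimpleGraph V, G.IsHamiltonian ∧ ¬ H.IsHamiltonian ∧
      ∀ (D L : Type) (C : Circuit (V × V) D L) (d : D),
        numWirings adj C (relabelings V) < 2 ^ (Fintype.card V / 8000000) →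
        Nat.card {σ : Equiv.Perm V // C.output (adj (G.comap σ)) = d} =
          Nat.card {σ : Equiv.Perm V // C.output (adj (H.comap σ)) = d} := by
  classical
  obtain ⟨m, hmdef⟩ : ∃ m, m = Fintype.card V / 8000000 := ⟨_, rfl⟩
  obtain ⟨r, hrdef⟩ : ∃ r, r = Fintype.card V / 4 := ⟨_, rfl⟩
  obtain ⟨M, hMdef⟩ : ∃ M, M = 240 * m := ⟨_, rfl⟩
  have hM : 0 < M := by omega
  have hr : 7980 * M ≤ r := by omega
  obtain ⟨π, hπ⟩ := exists_joining M hM
  obtain ⟨ei⟩ : Nonempty (BI M ↪ Fin r) := by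
    apply Function.Embedding.nonempty_of_card_le
    rw [card_BI, Fintype.card_fin]
    exact hr
  obtain ⟨blk⟩ : Nonempty (Fin r × V4 ↪ V) := by
    apply Function.Embedding.nonempty_of_card_le
    have h4 : Fintype.card V4 = 4 := by simp
    rw [Fintype.card_prod, Fintype.card_fin, h4]
    omega
  obtain ⟨z, hz⟩ : ∃ z, Fintype.card V = (10850 * M + 1) * 3 + z :=
    ⟨Fintype.card V - (10850 * M + 1) * 3, by omega⟩
  have hcard : Fintype.card V = Fintype.card (SegV (Sgm M) z) := by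
    have h3 : Fintype.card (Option Bool) = 3 := rfl
    unfold SegV
    rw [Fintype.card_sum, Fintype.card_prod, card_Sgm, h3, Fintype.card_fin]
    exact hz
  obtain ⟨Θ₀⟩ : Nonempty (V ≃ SegV (Sgm M) z) := Fintype.card_eq.1 hcard
  obtain ⟨v0, hv0⟩ := exists_node π hπ hM
  refine ⟨gg π Θ₀ 0, gg π Θ₀ (Pi.single v0 1), ham_zero π hM Θ₀, not_ham_single π Θ₀ v0, ?_⟩
  intro D L C d hcon
  rw [← hmdef] at hcon
  have hfin : (wirings adj C (relabelings V)).Finite := wirings_finite' _ C
  obtain ⟨R, hR⟩ := exists_R blk π ei m hMdef (wirings adj C (relabelings V)) hfin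
    (by
      rintro ξ ⟨g, f, ⟨σ, rfl⟩, rfl⟩ κ'
      refine ⟨g, cm σ ∘ cm (bp blk κ'), ⟨bp blk κ' * σ, ?_⟩, ?_⟩
      · exact (act_comp (isRight_comap (W := V)) σ (bp blk κ')).symm
      · rw [pre_view]) hcon
  obtain ⟨Θ, hΘ⟩ := exists_placement π blk ei R hcard
  have hsh := fun σ => exists_shift_ham blk π ei R hπ hM Θ hΘ C σ (by
    intro g χ hχ
    exact hR (view adj C g (cm σ)) ⟨g, _, ⟨σ, rfl⟩, rfl⟩ χ hχ) v0 hv0
  choose u₀ hu₀ using hsh
  let f : SimpleGraph V → Equiv.Perm V → ℕ := fun G σ =>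
    if C.output (adj (cm σ G)) = d then 1 else 0
  let P : (Ed M → ZMod 2) → Equiv.Perm V := fun y => bp blk (iotaR π ei R y)
  have hcardf : ∀ G, Nat.card {σ : Equiv.Perm V // C.output (adj (G.comap σ)) = d} =
      ∑ σ, f G σ := by
    intro G
    rw [Nat.card_eq_fintype_card, Fintype.card_subtype, card_filter]
  -- the placement does not matter
  have hplace : ∀ β, ∑ σ, f (gg π Θ β) σ = ∑ σ, f (gg π Θ₀ β) σ := by
    intro β
    have h1 : gg π Θ β = cm (Θ.trans Θ₀.symm : Equiv.Perm V) (gg π Θ₀ β) := by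
      ext p q
      show (GG π β z).Adj (Θ p) (Θ q) ↔ (GG π β z).Adj (Θ₀ (Θ₀.symm (Θ p))) (Θ₀ (Θ₀.symm (Θ q)))
      rw [Equiv.apply_symm_apply, Equiv.apply_symm_apply]
    have h2 : ∀ σ, f (gg π Θ β) σ = f (gg π Θ₀ β) ((Θ.trans Θ₀.symm : Equiv.Perm V) * σ) := by
      intro σ
      simp only [f]
      rw [h1]
      have h3 := (isRight_comap (W := V)).mul (Θ.trans Θ₀.symm : Equiv.Perm V) σ (gg π Θ₀ β)
      have h4 : cm ((Θ.trans Θ₀.symm : Equiv.Perm V) * σ) (gg π Θ₀ β) =
        cm σ (cm (Θ.trans Θ₀.symm : Equiv.Perm V) (gg π Θ₀ β)) := h3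
      rw [h4]
    rw [Finset.sum_congr rfl fun σ _ => h2 σ]
    exact Equiv.sum_comp (Equiv.mulLeft (Θ.trans Θ₀.symm : Equiv.Perm V)) (f (gg π Θ₀ β))
  have hav : ∀ G, Fintype.card (Ed M → ZMod 2) * ∑ σ, f G σ =
      ∑ σ, ∑ u, f G (P u * σ) := by
    intro G
    rw [sum_comm, ← smul_eq_mul, ← card_univ, ← sum_const]
    refine sum_congr rfl fun u _ => ?_
    exact (Equiv.sum_comp (Equiv.mulLeft (P u)) (f G)).symm
  have hmulP : ∀ G u σ, f G (P u * σ) =
      if C.output (adj (cm σ (cm (P u) G))) = d then 1 else 0 := by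
    intro G u σ
    simp only [f]
    have h3 := (isRight_comap (W := V)).mul (P u) σ G
    have h4 : cm (P u * σ) G = cm σ (cm (P u) G) := h3
    rw [h4]
  have hfe : ∀ σ u, f (gg π Θ 0) (P (u + u₀ σ) * σ) =
      f (gg π Θ (Pi.single v0 1)) (P u * σ) := by
    intro σ u
    rw [hmulP, hmulP, hu₀ σ u]
  have hmain : ∑ σ, ∑ u, f (gg π Θ 0) (P u * σ) =
      ∑ σ, ∑ u, f (gg π Θ (Pi.single v0 1)) (P u * σ) := by
    refine sum_congr rfl fun σ _ => ?_
    rw [← Equiv.sum_comp (Equiv.addRight (u₀ σ)) fun u => f (gg π Θ 0) (P u * σ)]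
    exact sum_congr rfl fun u _ => hfe σ u
  rw [← hav, ← hav, hplace, hplace] at hmain
  rw [hcardf, hcardf]
  exact Nat.eq_of_mul_eq_mul_left Fintype.card_pos hmain

end Pool.Agent.H167R3.HW
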