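import Pool.Agent.H167R3.HW.Core

set_option autoImplicit false
set_option linter.unusedSectionVars false

/-!
# Circuits with few transforms of wirings do not see the charge of the gadget graph
-/

namespace Pool.Agent.H167R3.HW

open Finset Matrix
open Pool.Agent.H525R2
open Pool.Agent.H545R2 (SegV)
open Pool.Agent.H545R2.K (Nd Ed BI V4 Sgm bd bd_add bd_zero iotaR Bad bp bp_apply
  bp_notMem bp_add bp_zero actV GG GG_act card_annihilator exists_good)
open Pool.Agent.H429R4.Sem (Circuit)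
open Pool.Agent.H429R4.GC (value view adj IsAction IsRight isRight_comap act_comp pre pre_pre
  pre_view pre_id fixer vfixer mem_vfixer vfixer_le value_shift adj_eq_iff)

section abstract

variable {X B D L E J : Type} [Fintype E] [DecidableEq E] [Fintype J] [DecidableEq J]
  {a : (J → ZMod 2) → X → X}

/-- Right-hand sides with invisible difference look the same to the circuit, up to a shift. -/
theorem exists_shift_output' (ha : IsAction a) (enc : X → B → Bool) (C : Circuit B D L)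
    (A : Matrix E J (ZMod 2)) (ins : (E → ZMod 2) → X)
    (hins : ∀ u b, a u (ins b) = ins (b + A *ᵥ u)) {t : ℕ} (ht : 1 < t)
    (hloc : ∀ β b τ, (∀ j, τ j ≠ 0 → ∃ u, (∀ x, enc (a u x) β = enc x β) ∧ (A *ᵥ u) j ≠ 0) →
      enc (ins (b + τ)) β = enc (ins b) β)
    (hmid : ∀ g, ∀ x : E → ZMod 2, t ≤ hammingNorm x → hammingNorm x < 2 * t →
      ∃ u ∈ vfixer ha enc C g, (x ᵥ* A) ⬝ᵥ u ≠ 0)
    (b b' : E → ZMod 2)
    (hinv : Sym.Inv A t (⊤ : Submodule (ZMod 2) (J → ZMod 2)) (b + b')) :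
    ∃ u₀ : J → ZMod 2, ∀ u, C.output (enc (a (u + u₀) (ins b))) = C.output (enc (a u (ins b'))) := by
  classical
  obtain ⟨u₀, -, hu₀⟩ := Sym.exists_shift (lt_trans one_pos ht)
    (H' := fixer ha (value enc C C.out)) (fun x hx1 hx2 => by
      obtain ⟨u, hu, hne⟩ := hmid C.out x hx1 hx2
      exact ⟨u, vfixer_le ha enc C C.out hu, hne⟩) hinv
  refine ⟨u₀, fun u => ?_⟩
  have h := value_shift ha enc C A ins hins ht hloc hmid C.out _ (b + A *ᵥ (u + u₀)) hu₀
  have e : b + A *ᵥ (u + u₀) + (b + b' + A *ᵥ u₀) = b' + A *ᵥ u := by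
    rw [Matrix.mulVec_add]
    funext i
    simp only [Pi.add_apply]
    generalize b i = b1
    generalize b' i = b2
    generalize (A *ᵥ u) i = b3
    generalize (A *ᵥ u₀) i = b4
    revert b1 b2 b3 b4
    decide
  rw [e, ← hins, ← hins] at h
  exact h.symm

end abstract

/-- The relabeling of a graph. -/
abbrev cm {V : Type} (ρ : Equiv.Perm V) (G : SimpleGraph V) : SimpleGraph V := G.comap ρ

variable {V D L : Type} {r : ℕ} (blk : Fin r × V4 ↪ V)

theorem pre_bp_add (κ κ' : Fin r → V4)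
    (ξ : Option (SimpleGraph V → Bool) × Multiset (L × (SimpleGraph V → D))) :
    pre (cm (bp blk (κ + κ'))) ξ = pre (cm (bp blk κ)) (pre (cm (bp blk κ')) ξ) := by
  rw [pre_pre, bp_add]
  have h := act_comp (isRight_comap (W := V)) (bp blk κ') (bp blk κ)
  exact congrArg (fun f => pre f ξ) h.symm

theorem pre_bp_zero (ξ : Option (SimpleGraph V → Bool) × Multiset (L × (SimpleGraph V → D))) :
    pre (cm (bp blk 0)) ξ = ξ := by
  rw [bp_zero]
  have h : cm (1 : Equiv.Perm V) = id := funext fun G => (isRight_comap (W := V)).one G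
  rw [h, pre_id]

/-- The translations of the blocks that fix a wiring. -/
def stb (ξ : Option (SimpleGraph V → Bool) × Multiset (L × (SimpleGraph V → D))) :
    Submodule (ZMod 2) (Fin r → V4) where
  carrier := {κ | pre (cm (bp blk κ)) ξ = ξ}
  add_mem' := by
    intro κ κ' h h'
    have h1 : pre (cm (bp blk κ)) ξ = ξ := h
    have h2 : pre (cm (bp blk κ')) ξ = ξ := h'
    change pre (cm (bp blk (κ + κ'))) ξ = ξ
    rw [pre_bp_add, h2, h1]
  zero_mem' := pre_bp_zero blk ξ
  smul_mem' := by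
    intro c κ hκ
    have hc : c = 0 ∨ c = 1 := by revert c; decide
    rcases hc with rfl | rfl
    · rw [zero_smul]
      exact pre_bp_zero blk ξ
    · rw [one_smul]
      exact hκ

theorem mem_stb {ξ : Option (SimpleGraph V → Bool) × Multiset (L × (SimpleGraph V → D))}
    {κ : Fin r → V4} : κ ∈ stb blk ξ ↔ pre (cm (bp blk κ)) ξ = ξ := Iff.rfl

variable {M : ℕ} (π : Fin 35 → Equiv.Perm (Fin M)) (ei : BI M ↪ Fin r)

/-- A placement of the gadget that is good for all wirings. -/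
theorem exists_R (m : ℕ) (hm : M = 240 * m)
    (Wr : Set (Option (SimpleGraph V → Bool) × Multiset (L × (SimpleGraph V → D))))
    (hfin : Wr.Finite) (hcl : ∀ ξ ∈ Wr, ∀ κ, pre (cm (bp blk κ)) ξ ∈ Wr)
    (hcard : Nat.card Wr < 2 ^ m) :
    ∃ R, ∀ ξ ∈ Wr, ∀ χ ∈ (stb blk ξ).dualAnnihilator, R ∉ Bad π ei χ := by
  classical
  have : Fintype Wr := hfin.fintype
  have hcardW : ∀ ξ : Wr, Nat.card (stb blk ξ.1).dualAnnihilator ≤ Fintype.card Wr := by
    intro ξ
    apply card_annihilator (stb blk ξ.1)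
      (fun κ => (⟨pre (cm (bp blk κ)) ξ.1, hcl ξ.1 ξ.2 κ⟩ : Wr))
    intro κ κ' hκ
    have h1 : pre (cm (bp blk κ)) ξ.1 = pre (cm (bp blk κ')) ξ.1 := congrArg Subtype.val hκ
    rw [mem_stb, sub_eq_neg_add, pre_bp_add, h1, ← pre_bp_add, neg_add_cancel, pre_bp_zero]
  have hfin' : Finite ((Fin r → V4) →ₗ[ZMod 2] ZMod 2) := Module.finite_of_finite (ZMod 2)
  have hfint : Fintype ((Fin r → V4) →ₗ[ZMod 2] ZMod 2) := Fintype.ofFinite _
  let X : Finset ((Fin r → V4) →ₗ[ZMod 2] ZMod 2) :=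
    univ.biUnion (fun ξ : Wr => univ.filter (fun χ => χ ∈ (stb blk ξ.1).dualAnnihilator))
  rw [Nat.card_eq_fintype_card] at hcard
  have hX : X.card < 4 ^ m := by
    have h1 : X.card ≤ ∑ ξ : Wr, Fintype.card Wr := by
      refine le_trans Finset.card_biUnion_le (Finset.sum_le_sum (fun ξ _ => ?_))
      refine le_trans (le_of_eq ?_) (hcardW ξ)
      rw [Nat.card_eq_fintype_card, Fintype.card_subtype]
    rw [Finset.sum_const, Finset.card_univ, smul_eq_mul] at h1
    have h2 : (4 : ℕ) ^ m = 2 ^ m * 2 ^ m := by rw [← mul_pow]; norm_num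
    rw [h2]
    exact lt_of_le_of_lt h1 (Nat.mul_lt_mul'' hcard hcard)
  obtain ⟨R, hR⟩ := exists_good π ei m hm X hX
  refine ⟨R, fun ξ hξ χ hχ => ?_⟩
  apply hR
  simp only [X, Finset.mem_biUnion, Finset.mem_univ, true_and, Finset.mem_filter]
  exact ⟨⟨ξ, hξ⟩, hχ⟩

/-- The gadget graph with charge `β`, placed by `Θ`. -/
def gg {z : ℕ} (Θ : V ≃ SegV (Sgm M) z) (β : Nd M → ZMod 2) : SimpleGraph V :=
  (GG π β z).comap Θ

theorem exists_shift_ham {z : ℕ} (R : BI M → ZMod 3)
    (hπ : ∀ A B : Finset (Fin M), M ≤ 5 * A.card → M ≤ 5 * B.card → ∃ j, ∃ a ∈ A, π j a ∈ B)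
    (hM : 0 < M) (Θ : V ≃ SegV (Sgm M) z)
    (hΘ : ∀ y x, Θ (bp blk (iotaR π ei R y) x) = actV π y (Θ x))
    (C : Circuit (V × V) D L) (σ : Equiv.Perm V)
    (hR : ∀ g, ∀ χ ∈ (stb blk (view adj C g (cm σ))).dualAnnihilator, R ∉ Bad π ei χ)
    (v0 : Nd M)
    (hv0 : ∀ x : Nd M → ZMod 2, hammingNorm x < 35 * M → (∀ y, (x ᵥ* bm π) ⬝ᵥ y = 0) →
      x v0 = 0) :
    ∃ u₀ : Ed M → ZMod 2, ∀ u,
      C.output (adj (cm σ (cm (bp blk (iotaR π ei R (u + u₀))) (gg π Θ 0)))) =
      C.output (adj (cm σ (cm (bp blk (iotaR π ei R u)) (gg π Θ (Pi.single v0 1))))) := by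
  classical
  let P : (Ed M → ZMod 2) → Equiv.Perm V := fun y => bp blk (iotaR π ei R y)
  have ha : IsAction fun (u : Ed M → ZMod 2) (G : SimpleGraph V) => cm (P u) G :=
    { zero := by
        intro G
        have h : P 0 = 1 := by
          show bp blk (iotaR π ei R 0) = 1
          rw [map_zero, bp_zero]
        show cm (P 0) G = G
        rw [h]
        exact (isRight_comap (W := V)).one G
      add := by
        intro u u' G
        have h : P (u + u') = P u' * P u := by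
          show bp blk (iotaR π ei R (u + u')) = _
          rw [add_comm, map_add, bp_add]
        show cm (P (u + u')) G = cm (P u) (cm (P u') G)
        rw [h]
        exact (isRight_comap (W := V)).mul _ _ G }
  refine exists_shift_output' ha (fun G => adj (cm σ G)) C (bm π) (gg π Θ) ?_
    (t := 35 * M) (by omega) ?_ ?_ 0 (Pi.single v0 1) ?_
  · intro u b
    show cm (P u) (gg π Θ b) = gg π Θ (b + bm π *ᵥ u)
    rw [bm_mulVec]
    ext p q
    show (GG π b z).Adj (Θ (P u p)) (Θ (P u q)) ↔ (GG π (b + bd π u) z).Adj (Θ p) (Θ q)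
    have e : b + bd π u + bd π u = b := by
      ext v
      simp only [Pi.add_apply]
      rw [add_assoc, CharTwo.add_self_eq_zero, add_zero]
    have h1 := GG_act π (β := b + bd π u) (z := z) u (Θ p) (Θ q)
    rw [e] at h1
    rw [hΘ, hΘ]
    exact h1
  · rintro ⟨p, q⟩ b τ hτ
    by_cases hpq : p = q
    · subst hpq
      show adj (cm σ (gg π Θ (b + τ))) (p, p) = adj (cm σ (gg π Θ b)) (p, p)
      rw [adj_eq_iff]
      simp
    · show adj (cm σ (gg π Θ (b + τ))) (p, q) = adj (cm σ (gg π Θ b)) (p, q)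
      rw [adj_eq_iff]
      show (GG π (b + τ) z).Adj (Θ (σ p)) (Θ (σ q)) ↔ (GG π b z).Adj (Θ (σ p)) (Θ (σ q))
      refine adj_local π Θ P hΘ (σ p) (σ q) b τ fun j hj => ?_
      obtain ⟨u, hu1, hu2⟩ := hτ j hj
      refine ⟨u, ?_, by rw [bm_mulVec] at hu2; exact hu2⟩
      have h1 := hu1 (SimpleGraph.fromEdgeSet {s(σ p, σ q)})
      have h2 : adj (cm σ (cm (P u) (SimpleGraph.fromEdgeSet {s(σ p, σ q)}))) (p, q) =
        adj (cm σ (SimpleGraph.fromEdgeSet {s(σ p, σ q)})) (p, q) := h1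
      rw [adj_eq_iff] at h2
      simp only [SimpleGraph.comap_adj, SimpleGraph.fromEdgeSet_adj, Set.mem_singleton_iff,
        true_and] at h2
      exact (h2.2 (fun e => hpq (σ.injective e))).1
  · intro g x hx1 hx2
    obtain ⟨y, hy1, hy2⟩ := exists_mid π ei hπ hM R (stb blk (view adj C g (cm σ))) (hR g) x hx1 hx2
    refine ⟨y, ?_, hy2⟩
    rw [mem_vfixer]
    rw [mem_stb] at hy1
    have h2 : view (fun G => adj (cm σ G)) C g (fun G => cm (P y) G) =
        pre (fun G => cm (P y) G) (view adj C g (cm σ)) := by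
      rw [pre_view]
      rfl
    have h3 : view (fun G => adj (cm σ G)) C g id = view adj C g (cm σ) := rfl
    rw [h2, h3]
    exact hy1
  · intro x hx hx'
    rw [zero_add, dotProduct_single_one]
    exact hv0 x hx (fun y => hx' y trivial)

end Pool.Agent.H167R3.HW
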