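import Pool.Agent.H167R3.HW.Local
import Pool.Agent.H429R4.Sem.Few

set_option autoImplicit false
set_option linter.unusedSectionVars false

/-!
# Circuits of bounded fan-in for Hamiltonicity contain many gates that are far from symmetric
-/

namespace Pool.Agent.H167R3.HW

open Finset
open Pool.Agent.H545R2.K (V4 bp bp_apply bp_notMem)
open Pool.Agent.H429R4.Sem (Circuit card_range_le_of_factor card_range_le card_range_const_le
  card_range_prod_le card_range_pi_le)
open Pool.Agent.H429R4.GC (value value_eq_view view adj wirings numWirings)

variable {V D L : Type} {r : ℕ}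

/-- The number of transforms of the function computed at the gate `g` under the translations of
the blocks. -/
noncomputable def numTransforms (C : Circuit (V × V) D L) (blk : Fin r × V4 ↪ V)
    (g : C.Gate) : ℕ :=
  Nat.card (Set.range fun (κ : Fin r → V4) (G : SimpleGraph V) =>
    value adj C g (G.comap (bp blk κ)))

variable (blk : Fin r × V4 ↪ V)

theorem point_factor (p : V) : ∃ k : (Fin r → V4) → V4, ∀ κ κ', k κ = k κ' →
    bp blk κ p = bp blk κ' p := by
  by_cases hp : p ∈ Set.range blk
  · obtain ⟨⟨i, l⟩, rfl⟩ := hp
    refine ⟨fun κ => κ i, fun κ κ' h => ?_⟩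
    rw [bp_apply, bp_apply]
    have h' : κ i = κ' i := h
    rw [h']
  · exact ⟨fun _ => 0, fun κ κ' _ => by rw [bp_notMem blk _ hp, bp_notMem blk _ hp]⟩

/-- A bit of the adjacency matrix has at most sixteen transforms. -/
theorem card_bit_le (c : V × V) :
    Nat.card (Set.range fun (κ : Fin r → V4) (G : SimpleGraph V) =>
      adj (G.comap (bp blk κ)) c) ≤ 16 := by
  obtain ⟨p, q⟩ := c
  obtain ⟨k, hk⟩ := point_factor blk p
  obtain ⟨k', hk'⟩ := point_factor blk q
  refine (card_range_le_of_factor (S := Fin r → V4) _ (fun κ => (k κ, k' κ)) ?_).trans ?_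
  · intro κ κ' h
    rw [Prod.mk.injEq] at h
    funext G
    have h1 : ∀ κ, adj (G.comap (bp blk κ)) (p, q) = adj G (bp blk κ p, bp blk κ q) := by
      intro κ
      unfold adj
      rw [decide_eq_decide]
      rfl
    rw [h1, h1, hk κ κ' h.1, hk' κ κ' h.2]
  · refine (card_range_le _).trans ?_
    rw [Nat.card_prod]
    have h4 : Nat.card V4 = 4 := by simp
    rw [h4]

open Classical in
/-- The local data at a gate: the bit that is read, and the functions on the wires that come from
gates satisfying `P`. -/
noncomputable def loc (C : Circuit (V × V) D L) (P : C.Gate → Prop) (g : C.Gate)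
    (κ : Fin r → V4) : Option (SimpleGraph V → Bool) × (C.Gate → Option (SimpleGraph V → D)) :=
  ((C.read g).map fun c G => adj (G.comap (bp blk κ)) c,
    fun h => if h ∈ (C.wires g).map Prod.snd ∧ P h then
      some fun G => value adj C h (G.comap (bp blk κ)) else none)

theorem card_loc_le (C : Circuit (V × V) D L)
    {m w : ℕ} (hm : 0 < m) (hw : ∀ g, Multiset.card (C.wires g) ≤ w) (P : C.Gate → Prop)
    (hP : ∀ h, P h → numTransforms C blk h ≤ m) (g : C.Gate) :
    Nat.card (Set.range fun κ : Fin r → V4 => loc blk C P g κ) ≤ 16 * m ^ w := by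
  classical
  let _ := C.finite
  unfold loc
  refine (card_range_prod_le _ _).trans ?_
  refine Nat.mul_le_mul ?_ ?_
  · rcases hr : C.read g with _ | c
    · simp only [Option.map_none]
      exact (card_range_const_le _).trans (by norm_num)
    · simp only [Option.map_some]
      refine le_trans ?_ (card_bit_le blk c)
      exact card_range_le_of_factor _ _ fun s s' h => congrArg some h
  · refine (card_range_pi_le (S := Fin r → V4) fun h (κ : Fin r → V4) =>
      if h ∈ (C.wires g).map Prod.snd ∧ P h then
        some fun G : SimpleGraph V => value adj C h (G.comap (bp blk κ)) else none).trans ?_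
    have hle : ∀ h : C.Gate, Nat.card (Set.range fun κ : Fin r → V4 =>
        if h ∈ (C.wires g).map Prod.snd ∧ P h then
          some fun G : SimpleGraph V => value adj C h (G.comap (bp blk κ))
        else none) ≤ if h ∈ ((C.wires g).map Prod.snd).toFinset then m else 1 := by
      intro h
      by_cases h1 : h ∈ (C.wires g).map Prod.snd
      · rw [if_pos (Multiset.mem_toFinset.2 h1)]
        by_cases h2 : P h
        · simp only [h1, h2, and_self, if_true]
          refine le_trans ?_ (hP h h2)
          exact card_range_le_of_factor _ _ fun s s' h => congrArg some h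
        · simp only [h2, and_false, if_false]
          exact (card_range_const_le _).trans hm
      · rw [if_neg (fun h3 => h1 (Multiset.mem_toFinset.1 h3))]
        simp only [h1, false_and, if_false]
        exact card_range_const_le _
    refine (prod_le_prod' fun h _ => hle h).trans ?_
    rw [prod_ite_mem, univ_inter, prod_const]
    refine Nat.pow_le_pow_right hm ?_
    refine (Multiset.toFinset_card_le _).trans ?_
    rw [Multiset.card_map]
    exact hw g

/-- The local data at the wild gates and at `g` determine what enters the gate `g`. -/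
theorem view_eq_of_loc (C : Circuit (V × V) D L) (P : C.Gate → Prop) (g : C.Gate)
    {κ κ' : Fin r → V4} (hW : ∀ h, ¬ P h → loc blk C P h κ = loc blk C P h κ')
    (hg : loc blk C P g κ = loc blk C P g κ') :
    view adj C g (cm (bp blk κ)) = view adj C g (cm (bp blk κ')) := by
  classical
  have hval : ∀ k, (∀ h, C.rank h < k → ¬ P h →
      (fun G : SimpleGraph V => value adj C h (G.comap (bp blk κ))) =
        fun G => value adj C h (G.comap (bp blk κ'))) ∧
      ∀ h, C.rank h < k + 1 → loc blk C P h κ = loc blk C P h κ' →
        view adj C h (cm (bp blk κ)) = view adj C h (cm (bp blk κ')) := by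
    intro k
    induction k with
    | zero =>
      refine ⟨fun h hh => absurd hh (by omega), fun h hh hl => ?_⟩
      have hwi : C.wires h = 0 := by
        rw [Multiset.eq_zero_iff_forall_notMem]
        intro e he
        have := C.rank_lt h e he
        omega
      unfold view
      have h1 := congrArg Prod.fst hl
      unfold loc at h1
      simp only at h1
      rw [h1, hwi, Multiset.map_zero, Multiset.map_zero]
    | succ k ih =>
      have hwild : ∀ h, C.rank h < k + 1 → ¬ P h →
          (fun G : SimpleGraph V => value adj C h (G.comap (bp blk κ))) =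
            fun G => value adj C h (G.comap (bp blk κ')) := by
        intro h hh hP
        have h1 := ih.2 h hh (hW h hP)
        funext G
        have key : ∀ κ : Fin r → V4, value adj C h (G.comap (bp blk κ)) =
            C.fn h ((view adj C h (cm (bp blk κ))).1.map fun F => F G)
              ((view adj C h (cm (bp blk κ))).2.map fun e => (e.1, e.2 G)) :=
          fun κ => value_eq_view adj C h (cm (bp blk κ)) G
        rw [key κ, key κ', h1]
      refine ⟨hwild, fun h hh hl => ?_⟩
      unfold view
      have h1 := congrArg Prod.fst hl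
      have h2 := congrArg Prod.snd hl
      unfold loc at h1 h2
      simp only at h1 h2
      rw [h1]
      refine congrArg (Prod.mk _) (Multiset.map_congr rfl fun e he => ?_)
      by_cases hP : P e.2
      · have h3 := congrFun h2 e.2
        have h4 : e.2 ∈ (C.wires h).map Prod.snd := Multiset.mem_map_of_mem _ he
        simp only [h4, hP, and_self, if_true, Option.some.injEq] at h3
        exact congrArg (Prod.mk e.1) h3
      · exact congrArg (Prod.mk e.1)
          (hwild e.2 (by have := C.rank_lt h e he; omega) hP)
  exact (hval (C.rank g)).2 g (by omega) hg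

theorem card_views_le (C : Circuit (V × V) D L) {m w t : ℕ} (hm : 0 < m)
    (hw : ∀ g, Multiset.card (C.wires g) ≤ w)
    (ht : Nat.card {g : C.Gate // m < numTransforms C blk g} ≤ t) (g : C.Gate) :
    Nat.card (Set.range fun κ : Fin r → V4 => view adj C g (cm (bp blk κ))) ≤
      (16 * m ^ w) ^ (t + 1) := by
  classical
  let _ := C.finite
  set P : C.Gate → Prop := fun h => numTransforms C blk h ≤ m with hP
  have h1 := card_range_le_of_factor (S := Fin r → V4)
    (fun κ : Fin r → V4 => view adj C g (cm (bp blk κ)))
    (fun (κ : Fin r → V4) (h : Option {h : C.Gate // m < numTransforms C blk h}) =>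
      loc blk C P (h.elim g Subtype.val) κ) (by
      intro κ κ' hκ
      refine view_eq_of_loc blk C P g (fun h hh => ?_) ?_
      · exact congrFun hκ (some ⟨h, not_le.1 hh⟩)
      · exact congrFun hκ none)
  refine h1.trans ((card_range_pi_le (S := Fin r → V4) _).trans ?_)
  refine (prod_le_prod' fun h _ => card_loc_le blk C hm hw P (fun _ h => h) _).trans ?_
  rw [prod_const, card_univ, Fintype.card_option]
  rw [Nat.card_eq_fintype_card] at ht
  exact Nat.pow_le_pow_right (by positivity) (by omega)

theorem numWirings_le_of_few (C : Circuit (V × V) D L) {m w t : ℕ} (hm : 0 < m)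
    (hw : ∀ g, Multiset.card (C.wires g) ≤ w)
    (ht : Nat.card {g : C.Gate // m < numTransforms C blk g} ≤ t) :
    numWirings adj C (translations blk) ≤ C.size * (16 * m ^ w) ^ (t + 1) := by
  classical
  let _ := C.finite
  have hfin : ∀ g, Finite (Set.range fun κ : Fin r → V4 => view adj C g (cm (bp blk κ))) :=
    fun g => Set.finite_range _
  have hch : ∀ ξ : wirings adj C (translations blk), ∃ g,
      ξ.1 ∈ Set.range fun κ : Fin r → V4 => view adj C g (cm (bp blk κ)) := by
    rintro ⟨ξ, g, f, ⟨κ, rfl⟩, h⟩
    exact ⟨g, κ, h⟩
  choose γ hγ using hch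
  have h1 : Nat.card (wirings adj C (translations blk)) ≤
      Nat.card (Σ g : C.Gate, Set.range fun κ : Fin r → V4 =>
        view adj C g (cm (bp blk κ))) := by
    refine Nat.card_le_card_of_injective (fun ξ => ⟨γ ξ, ⟨ξ.1, hγ ξ⟩⟩) ?_
    intro ξ ξ' h
    have h2 : ∀ (x y : Σ g : C.Gate, Set.range fun κ : Fin r → V4 =>
        view adj C g (cm (bp blk κ))), x = y → x.2.1 = y.2.1 := by
      rintro x y rfl
      rfl
    exact Subtype.ext (h2 _ _ h)
  refine h1.trans ?_
  rw [Nat.card_sigma]
  refine (sum_le_sum fun g _ => card_views_le blk C hm hw ht g).trans (le_of_eq ?_)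
  rw [sum_const, card_univ, smul_eq_mul]
  rfl

/-- **Circuits for Hamiltonicity have many gates that are far from symmetric.** -/
theorem wild_gates [Fintype V] [DecidableEq V] (C : Circuit (V × V) D L) (acc : Set D)
    (hC : ∀ G : SimpleGraph V, C.output (adj G) ∈ acc ↔ G.IsHamiltonian) {m w : ℕ}
    (hm : 0 < m) (hw : ∀ g, Multiset.card (C.wires g) ≤ w) :
    2 ^ (r / 2000000) ≤
      C.size * (16 * m ^ w) ^ (Nat.card {g : C.Gate // m < numTransforms C blk g} + 1) :=
  (local_lower C acc hC blk).trans (numWirings_le_of_few blk C hm hw le_rfl)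

end Pool.Agent.H167R3.HW
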